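import Pool.Agent.Helper49.Chev.Std

/-!
# The coset version of Thompson's conjecture for groups of Lie type

`P` is a reduced crystallographic root system with a base `b`, and `G` is a group with root
subgroups of type `P` over finite fields `K r` (`r` a root) containing a common field `F`
(`ChevT.RootData`): homomorphisms `φ r : SL_2(K r) → G` satisfying the usual relations.
All untwisted Chevalley groups over `F` carry such data with `K r = F`, and the groups
`²A_{2n-1}(q)`, `²D_n(q)`, `³D_4(q)`, `²E_6(q)` carry such data for their relative root systems, with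
`F = F_q` and `K r` equal to `F_q` or to the field of degree `2` (`3` for `³D_4`) over `F_q`.

`α` is a standard automorphism of `G` (`ChevT.IsStandard`) with graph part `π` (a symmetry of the
Dynkin diagram) and field part `σ ∈ Aut(F)`: products of inner, diagonal, graph and field
automorphisms are of this form up to inner automorphisms.

If `σ² ≠ 1` and the fixed field of `σ` is not too small, then there is `x ∈ α G` such that the class
`x^G = {g⁻¹ x g : g ∈ G}` satisfies `(x^G)² = α² G`.

All groups are inside `Aut(G) = MulAut G`, and `g ∈ G` acts as `MulAut.conj g`.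
-/

namespace Pool.Agent.Results.MP_8640de_al.ChevalleyGroups

open scoped Pointwise

theorem result {ι M N F G : Type*} [Fintype ι] [AddCommGroup M] [Module ℚ M] [AddCommGroup N]
    [Module ℚ N] (P : RootPairing ι ℚ M N) [P.IsRootSystem] [P.IsCrystallographic] [P.IsReduced]
    (b : P.Base) [Field F] [Finite F] {K : ι → Type*} [∀ r, Field (K r)] [∀ r, Finite (K r)]
    [∀ r, Algebra F (K r)] [Group G] (D : ChevT.RootData P b F K G)
    (π : Equiv.Perm ι) (σ : F ≃+* F) (α : MulAut G) (hα : ChevT.IsStandard D π σ α)
    (hσ : ∃ z, σ (σ z) ≠ z)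
    (hq : ∀ j ∈ b.support, orderOf π * ∑ r, Module.finrank F (K r) * |P.pairingIn ℤ r j| <
      2 * ((Nat.card {z : F // σ z = z} : ℤ) - 1)) :
    ∃ x : MulAut G, (∃ g : G, x = α * MulAut.conj g) ∧
      {y | ∃ g : G, y = (MulAut.conj g)⁻¹ * x * MulAut.conj g} *
        {y | ∃ g : G, y = (MulAut.conj g)⁻¹ * x * MulAut.conj g} =
        {y | ∃ g : G, y = α ^ 2 * MulAut.conj g} := by
  obtain ⟨x, hx, h⟩ := ChevT.standard_main D hα hσ hq
  exact ⟨x, hx, h⟩

end Pool.Agent.Results.MP_8640de_al.ChevalleyGroups
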