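import Pool.Agent.CTC.Fin

/-!
# The coset version of Thompson's conjecture for `PSL_n(F)`, `n ≥ 3`, and `PΓL_n(F)`

`F` is a finite field, `n ≥ 3`, `G = PSL_n(F)`, and `α` is an automorphism of `G` of the form
`X ↦ A σ(X) A⁻¹` with `A ∈ GL_n(F)` and `σ ∈ Aut(F)` (so `α` is any element of `PΓL_n(F)`).  If `n` is
odd, or the fixed field of `σ` has at least `4` elements, or `σ² ≠ 1`, or `α²` is not inner, then
there is `x ∈ α G` such that the class `x^G = {g⁻¹ x g : g ∈ G}` satisfies
`(x^G)² = α² G`.

All groups are inside `Aut(G) = MulAut G`, and `G` is identified with the inner automorphisms through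
`MulAut.conj : G →* MulAut G`.  `Matrix.ProjectiveSpecialLinearGroup (Fin n) F` is Mathlib's
`PSL_n(F)`, the quotient of `SL_n(F)` by its center.

The proof.  Let `x` be induced by a `σ`-semilinear map of type `E ⊕ F_c`, where `E` is a cyclic
module of dimension `n - 1` over the twisted polynomial ring and `F_c` is one dimensional and not a
factor of `E`.  For a `σ²`-semilinear map `B` with a hyperplane `H`, `B H ≠ H`, one constructs a basis of
`H` adapted to `B` and an identification of `H` with `E`, which give `B = Y X` with `X` and `Y` of the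
given type (`Pool/Agent/CTC/Build`, `Cyc`, `Asm`).  If `σ² = 1` the scalar maps `B` require real
elements `x`, which are constructed in `REx1`-`REx5`.
-/

set_option autoImplicit false

namespace Pool.Agent.Results.MP_8640de_al.PGammaL

open Matrix
open scoped Pointwise

theorem result {F : Type*} [Field F] [Finite F] {n : ℕ} (hn : 3 ≤ n)
    (σ : F ≃+* F) (A : Matrix (Fin n) (Fin n) F) (hA : A.det ≠ 0)
    (α : MulAut (ProjectiveSpecialLinearGroup (Fin n) F))
    (hα : ∀ g g' : SpecialLinearGroup (Fin n) F,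
      (g' : Matrix (Fin n) (Fin n) F) = A * (g : Matrix (Fin n) (Fin n) F).map σ * A⁻¹ →
        α (QuotientGroup.mk g) = QuotientGroup.mk g')
    (h : Odd n ∨ 4 ≤ Nat.card {z : F // σ z = z} ∨ (∃ z, σ (σ z) ≠ z) ∨
      ¬ ∃ g : ProjectiveSpecialLinearGroup (Fin n) F, α ^ 2 = MulAut.conj g) :
    ∃ x : MulAut (ProjectiveSpecialLinearGroup (Fin n) F),
      (∃ g : ProjectiveSpecialLinearGroup (Fin n) F, x = α * MulAut.conj g) ∧
      {y | ∃ g : ProjectiveSpecialLinearGroup (Fin n) F,
          y = (MulAut.conj g)⁻¹ * x * MulAut.conj g} *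
        {y | ∃ g : ProjectiveSpecialLinearGroup (Fin n) F,
          y = (MulAut.conj g)⁻¹ * x * MulAut.conj g} =
        {y | ∃ g : ProjectiveSpecialLinearGroup (Fin n) F, y = α ^ 2 * MulAut.conj g} := by
  have hind : CosetT.Ind α A σ := by
    intro g g' hg
    apply hα g g'
    rw [← hg, Matrix.mul_nonsing_inv_cancel_right _ _ (isUnit_iff_ne_zero.2 hA)]
  obtain ⟨x, hx, hxx⟩ := CTC.main σ hn A hA α hind (by
    rcases h with h | h | h | h
    · exact Or.inl h
    · exact Or.inr (Or.inl h)
    · exact Or.inr (Or.inr (Or.inl h))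
    · refine Or.inr (Or.inr (Or.inr ?_))
      rintro ⟨g, hg⟩
      exact h ⟨g, hg.symm⟩)
  exact ⟨x, hx, hxx⟩

end Pool.Agent.Results.MP_8640de_al.PGammaL
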