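import Pool.Agent.Helper49.Coset.Main

/-!
# The coset version of Thompson's conjecture for semilinear automorphisms of `PSL_n(F)`

`F` is a finite field, `n ≥ 2`, and `σ` is an automorphism of `F` with `σ² ≠ 1` whose fixed field has
at least `5` elements (at least `4` when `n = 2`).  For every automorphism `α` of `G = PSL_n(F)` of
the form `X ↦ A σ(X) A⁻¹` with `A ∈ GL_n(F)`, there is `x ∈ α G` such that the class
`x^G = {g⁻¹ x g : g ∈ G}` satisfies `(x^G)² = α² G`.

All groups are inside `Aut(G) = MulAut G`, and `G` is identified with the inner automorphisms through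
`MulAut.conj : G →* MulAut G`.  `Matrix.ProjectiveSpecialLinearGroup (Fin n) F` is Mathlib's
`PSL_n(F)`, the quotient of `SL_n(F)` by its center.
-/

namespace Pool.Agent.Results.MP_8640de_al.SemilinearCosets

open Matrix
open scoped Pointwise

theorem result {F : Type*} [Field F] [Finite F] {n : ℕ}
    (σ : F ≃+* F) (hσ : ∃ z, σ (σ z) ≠ z)
    (hq : (n = 2 ∧ 4 ≤ Nat.card {z : F // σ z = z}) ∨ (3 ≤ n ∧ 5 ≤ Nat.card {z : F // σ z = z}))
    (A : Matrix (Fin n) (Fin n) F) (hA : A.det ≠ 0)
    (α : MulAut (ProjectiveSpecialLinearGroup (Fin n) F))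
    (hα : ∀ g g' : SpecialLinearGroup (Fin n) F,
      (g' : Matrix (Fin n) (Fin n) F) = A * (g : Matrix (Fin n) (Fin n) F).map σ * A⁻¹ →
        α (QuotientGroup.mk g) = QuotientGroup.mk g') :
    ∃ x : MulAut (ProjectiveSpecialLinearGroup (Fin n) F),
      (∃ g : ProjectiveSpecialLinearGroup (Fin n) F, x = α * MulAut.conj g) ∧
      {y | ∃ g : ProjectiveSpecialLinearGroup (Fin n) F,
          y = (MulAut.conj g)⁻¹ * x * MulAut.conj g} *
        {y | ∃ g : ProjectiveSpecialLinearGroup (Fin n) F,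
          y = (MulAut.conj g)⁻¹ * x * MulAut.conj g} =
        {y | ∃ g : ProjectiveSpecialLinearGroup (Fin n) F, y = α ^ 2 * MulAut.conj g} := by
  have hind : CosetT.Ind α A σ := by
    intro g g' hg
    apply hα g g'
    rw [← hg, Matrix.mul_nonsing_inv_cancel_right _ _ (isUnit_iff_ne_zero.2 hA)]
  obtain ⟨x, hx, h⟩ := CosetT.main_linear σ hσ hq A hA α hind
  exact ⟨x, hx, h⟩

end Pool.Agent.Results.MP_8640de_al.SemilinearCosets
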